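import Pool.Agent.NH20.BX.Main

set_option autoImplicit false

/-! The number of exceptional twists of every discriminant is bounded: the main estimate. -/

namespace Pool.Agent.NH20.BX

open Finset Filter
open Pool.Agent.Helper919 (XX)
open Pool.Agent.NH20.RP (NegFund)

theorem growth (κ : ℝ) (hκ : 0 < κ) (W : ℕ) : ∃ n₀ : ℕ, ∀ n : ℕ, n₀ ≤ n → 16 ≤ n ∧
    8 / κ ≤ Real.log n ∧ 4 ≤ Real.log n ∧
    Real.sqrt n * Real.log n + 2 + 4 * W * Real.log (Real.log n) ≤ κ / 32 * n := by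
  have tl : Tendsto (fun n : ℕ => Real.log (n : ℝ)) atTop atTop :=
    Real.tendsto_log_atTop.comp tendsto_natCast_atTop_atTop
  have ts : Tendsto (fun n : ℕ => Real.sqrt (Real.sqrt (n : ℝ))) atTop atTop :=
    Real.tendsto_sqrt_atTop.comp (Real.tendsto_sqrt_atTop.comp tendsto_natCast_atTop_atTop)
  obtain ⟨n₀, h0⟩ := eventually_atTop.1 ((eventually_ge_atTop 16).and
    ((tl.eventually_ge_atTop (8 / κ)).and ((tl.eventually_ge_atTop 4).and
      (ts.eventually_ge_atTop (max 1 (32 * (6 + 16 * W) / κ))))))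
  refine ⟨n₀, fun n hn => ?_⟩
  obtain ⟨h16, hk, h4, ht⟩ := h0 n hn
  refine ⟨h16, hk, h4, ?_⟩
  set t := Real.sqrt (Real.sqrt (n : ℝ)) with htd
  have ht1 : 1 ≤ t := (le_max_left _ _).trans ht
  have ht2 : 32 * (6 + 16 * W) / κ ≤ t := (le_max_right _ _).trans ht
  have hs : Real.sqrt n = t ^ 2 := by rw [htd, Real.sq_sqrt (Real.sqrt_nonneg _)]
  have hn4 : (n : ℝ) = t ^ 4 := by
    rw [show t ^ 4 = (t ^ 2) ^ 2 by ring, ← hs, Real.sq_sqrt (Nat.cast_nonneg _)]
  have hl : Real.log n ≤ 4 * t := by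
    rw [hn4, Real.log_pow]
    push_cast
    have := Real.log_le_self (by linarith : 0 ≤ t)
    linarith
  have hll : Real.log (Real.log n) ≤ 4 * t :=
    (Real.log_le_self (by linarith)).trans hl
  rw [hs]
  have e1 : t ^ 2 * Real.log n ≤ 4 * t ^ 3 := by nlinarith [pow_nonneg (by linarith : 0 ≤ t) 2]
  have e2 : 4 * (W : ℝ) * Real.log (Real.log n) ≤ 16 * W * t := by
    have hW : (0 : ℝ) ≤ W := Nat.cast_nonneg _
    nlinarith
  have e3 : t ≤ t ^ 3 := by nlinarith [mul_nonneg (by linarith : 0 ≤ t) (by nlinarith : 0 ≤ t ^ 2 - 1)]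
  have e4 : (1 : ℝ) ≤ t ^ 3 := by linarith
  have e5 : 32 * (6 + 16 * W) ≤ κ * t := by
    rw [div_le_iff₀ hκ] at ht2
    linarith
  have e6 : (6 + 16 * W) * t ^ 3 ≤ κ / 32 * n := by
    rw [hn4]
    have : 0 ≤ t ^ 3 := by positivity
    nlinarith
  have hW : (0 : ℝ) ≤ W := Nat.cast_nonneg _
  nlinarith

theorem bad_le (κ : ℝ) (hκ : 0 < κ) (W : ℕ) : ∃ n₀ : ℕ, ∀ d₀ : ℤ, d₀ ≠ 0 → ∀ n : ℕ, n₀ ≤ n →
    256 / κ * Real.log |(d₀ : ℝ)| ≤ n → ∀ m m' : ℤ, m ≠ 0 → m' ≠ 0 →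
    |(m : ℝ)| ≤ Real.log n ^ W → |(m' : ℝ)| ≤ Real.log n ^ W →
    ((bad n d₀ m m').card : ℝ) ≤ κ / 4 * (P n).card := by
  obtain ⟨n₀, h0⟩ := growth κ hκ W
  refine ⟨n₀, fun d₀ hd0 n hn hC m m' hm0 hm0' hm hm' => ?_⟩
  obtain ⟨h16, -, h4, hg⟩ := h0 n hn
  have hL : 0 < Real.log n := by linarith
  set N := (2 * d₀ * m * m').natAbs with hN
  have hN0 : N ≠ 0 := by
    rw [hN, Int.natAbs_ne_zero]
    simp [hd0, hm0, hm0']
  have h1 := card_dvd_le n N (by omega) hN0
  have h2 : ((bad n d₀ m m').card : ℝ) ≤ Real.sqrt n + 2 * (Real.log N / Real.log n) := h1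
  have hNr : (N : ℝ) = 2 * |(d₀ : ℝ)| * |(m : ℝ)| * |(m' : ℝ)| := by
    rw [hN, Nat.cast_natAbs]
    push_cast
    rw [abs_mul, abs_mul, abs_mul]
    norm_num
  have p0 : 0 < |(d₀ : ℝ)| := abs_pos.2 (by exact_mod_cast hd0)
  have p1 : 0 < |(m : ℝ)| := abs_pos.2 (by exact_mod_cast hm0)
  have p2 : 0 < |(m' : ℝ)| := abs_pos.2 (by exact_mod_cast hm0')
  have q1 : Real.log |(m : ℝ)| ≤ W * Real.log (Real.log n) := by
    rw [← Real.log_pow]
    exact Real.log_le_log p1 hm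
  have q2 : Real.log |(m' : ℝ)| ≤ W * Real.log (Real.log n) := by
    rw [← Real.log_pow]
    exact Real.log_le_log p2 hm'
  have h3 : Real.log N = Real.log 2 + Real.log |(d₀ : ℝ)| + Real.log |(m : ℝ)| +
      Real.log |(m' : ℝ)| := by
    rw [hNr, Real.log_mul (by positivity) (by positivity),
      Real.log_mul (by positivity) (by positivity), Real.log_mul (by positivity) (by positivity)]
  have h5 := Real.log_two_lt_d9
  have h6 : Real.log |(d₀ : ℝ)| ≤ κ / 256 * n := by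
    have : κ / 256 * (256 / κ * Real.log |(d₀ : ℝ)|) ≤ κ / 256 * n :=
      mul_le_mul_of_nonneg_left hC (by positivity)
    have e : κ / 256 * (256 / κ * Real.log |(d₀ : ℝ)|) = Real.log |(d₀ : ℝ)| := by
      field_simp
    linarith
  have h7 := pi_lower n h16
  have h8 : ((bad n d₀ m m').card : ℝ) * Real.log n ≤ κ / 4 * (n / 4) := by
    calc ((bad n d₀ m m').card : ℝ) * Real.log n
        ≤ (Real.sqrt n + 2 * (Real.log N / Real.log n)) * Real.log n := by gcongr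
      _ = Real.sqrt n * Real.log n + 2 * Real.log N := by field_simp
      _ ≤ κ / 4 * (n / 4) := by
          rw [h3]
          have hnn : (0 : ℝ) ≤ κ * n := by positivity
          linarith
  have h9 : ((bad n d₀ m m').card : ℝ) * Real.log n ≤ κ / 4 * (P n).card * Real.log n := by
    refine h8.trans ?_
    rw [mul_assoc]
    exact mul_le_mul_of_nonneg_left h7 (by positivity)
  exact le_of_mul_le_mul_right h9 hL

open Classical in
theorem core (W : ℕ) (η δ : ℝ) (hη : 0 < η) (hδ : 0 < δ) : ∃ (C : ℝ) (n₀ : ℕ), 0 < C ∧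
    ∀ d₀ : ℤ, d₀ ≠ 0 → ∀ n : ℕ, n₀ ≤ n → C * Real.log |(d₀ : ℝ)| ≤ n →
    ∀ S : Finset ℤ, (∀ d ∈ S, NegFund d ∧
      (∃ m k : ℤ, k ≠ 0 ∧ d₀ * d = m * k ^ 2 ∧ |(m : ℝ)| ≤ Real.log n ^ W) ∧
      η * (P n).card < |2 * (((P n).filter (fun p => spl d p)).card : ℝ) - (P n).card|) →
    (S.card : ℝ) * η ^ 2 ≤ 1 + δ := by
  -- the number of discriminants to be excluded
  set t : ℕ := ⌊(1 + δ) / η ^ 2⌋₊ + 1 with ht
  have ht1 : 1 + δ < t * η ^ 2 := by
    have := Nat.lt_floor_add_one ((1 + δ) / η ^ 2)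
    rw [div_lt_iff₀ (by positivity)] at this
    rw [ht]
    push_cast
    exact this
  have htpos : (0 : ℝ) < t := by rw [ht]; positivity
  set κ : ℝ := δ / (t * (1 + 2 * η)) with hκd
  have hκ : 0 < κ := by positivity
  have hκη : κ ≤ η / 2 := by
    rw [hκd, div_le_iff₀ (by positivity)]
    nlinarith
  have hκt : κ * t * (1 + 2 * η) = δ := by
    rw [hκd]; field_simp
  obtain ⟨n₁, h1⟩ := growth κ hκ W
  obtain ⟨n₂, h2⟩ := bad_le κ hκ W
  obtain ⟨n₃, h3⟩ := sw (2 * W + 1)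
  refine ⟨256 / κ, max n₁ (max n₂ n₃), by positivity, fun d₀ hd0 n hn hC S hS => ?_⟩
  obtain ⟨h16, h8κ, h4, -⟩ := h1 n ((le_max_left _ _).trans hn)
  have hn2 : n₂ ≤ n := ((le_max_left _ _).trans (le_max_right _ _)).trans hn
  have hn3 : n₃ ≤ n := ((le_max_right _ _).trans (le_max_right _ _)).trans hn
  have hL : 0 < Real.log n := by linarith
  have hpi := pi_lower n h16
  have hPpos : (0 : ℝ) < (P n).card := by
    have : (0 : ℝ) < ((P n).card : ℝ) * Real.log n := lt_of_lt_of_le (by positivity) hpi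
    exact pos_of_mul_pos_left this hL.le
  by_contra hcon
  rw [not_le] at hcon
  have hcard : t ≤ S.card := by
    rw [ht]
    have : ⌊(1 + δ) / η ^ 2⌋₊ < S.card := by
      rw [Nat.floor_lt (by positivity), div_lt_iff₀ (by positivity)]
      exact hcon
    omega
  obtain ⟨T, hTS, hTc⟩ := exists_subset_card_eq hcard
  have hm0 : ∀ d ∈ S, ∀ m k : ℤ, d₀ * d = m * k ^ 2 → m ≠ 0 := by
    rintro d hd m k h rfl
    have hd1 : d ≠ 0 := ne_of_lt (hS d hd).1.1
    rw [zero_mul] at h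
    exact (mul_ne_zero hd0 hd1) h
  have key := bessel T (P n) (fun d p => XX d p) κ (η - κ) hκ.le (by linarith)
    (by exact_mod_cast hPpos) (fun d _ p _ => Pool.Agent.Helper919.XX_abs_le d p)
    (by
      intro d hd d' hd' hne
      obtain ⟨hf, ⟨m, k, hk, hmk, hm⟩, -⟩ := hS d (hTS hd)
      obtain ⟨hf', ⟨m', k', hk', hmk', hm'⟩, -⟩ := hS d' (hTS hd')
      refine (gram n d₀ d d' m m' k k' hf hf' hmk hmk').trans ?_
      have g1 := h2 d₀ hd0 n hn2 hC m m' (hm0 d (hTS hd) m k hmk) (hm0 d' (hTS hd') m' k' hmk')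
        hm hm'
      have g2 := h3 n hn3 (m * m') (not_square d₀ d d' m m' k k' hd0 hf hf' hne hmk hmk')
        (by
          push_cast
          rw [abs_mul]
          calc 4 * (|(m : ℝ)| * |(m' : ℝ)|) ≤ Real.log n * (Real.log n ^ W * Real.log n ^ W) := by
                gcongr
            _ = Real.log n ^ (2 * W + 1) := by ring)
      have g3 : (n : ℝ) / Real.log n ^ 2 ≤ κ / 2 * (P n).card := by
        rw [div_le_iff₀ (by positivity)]
        have e1 : (8 : ℝ) ≤ κ * Real.log n := by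
          rw [div_le_iff₀ hκ] at h8κ
          linarith
        have e2 : (8 : ℝ) * (n / 4) ≤ κ * Real.log n * ((P n).card * Real.log n) :=
          mul_le_mul e1 hpi (by positivity) (by positivity)
        calc (n : ℝ) = 1 / 2 * (8 * (n / 4)) := by ring
          _ ≤ 1 / 2 * (κ * Real.log n * ((P n).card * Real.log n)) := by gcongr
          _ = _ := by ring
      linarith)
    (by
      intro d hd
      obtain ⟨hf, ⟨m, k, hk, hmk, hm⟩, hbig⟩ := hS d (hTS hd)
      have g1 := h2 d₀ hd0 n hn2 hC m 1 (hm0 d (hTS hd) m k hmk) one_ne_zero hm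
        (by rw [Int.cast_one, abs_one]; exact one_le_pow₀ (by linarith))
      have g2 := split_sum n d₀ d m k hf hmk
      have g3 := abs_sub_abs_le_abs_sub
        (2 * (((P n).filter (fun p => spl d p)).card : ℝ) - (P n).card) (∑ p ∈ P n, XX d p)
      have g4 : 0 ≤ κ * (P n).card := by positivity
      linarith)
  rw [hTc] at key
  have e1 : η ^ 2 * t - 2 * η * κ * t ≤ (η - κ) ^ 2 * t := by nlinarith [sq_nonneg κ]
  nlinarith

end Pool.Agent.NH20.BX
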