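import Mathlib

set_option autoImplicit false

/-! Bessel's inequality for nearly orthogonal vectors, and the number of prime factors up to `n`. -/

namespace Pool.Agent.NH20.BX

open Finset

/-- Bessel's inequality for nearly orthogonal vectors with entries in `[-1, 1]` -/
theorem bessel {ι κ : Type*} [DecidableEq ι] (T : Finset ι) (P : Finset κ) (v : ι → κ → ℝ)
    (c θ : ℝ) (hc : 0 ≤ c) (hθ : 0 ≤ θ) (hP : 0 < P.card)
    (h1 : ∀ i ∈ T, ∀ p ∈ P, |v i p| ≤ 1)
    (h2 : ∀ i ∈ T, ∀ j ∈ T, i ≠ j → |∑ p ∈ P, v i p * v j p| ≤ c * P.card)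
    (h3 : ∀ i ∈ T, θ * P.card ≤ |∑ p ∈ P, v i p|) :
    θ ^ 2 * T.card ≤ 1 + c * T.card := by
  rcases Nat.eq_zero_or_pos T.card with h0 | hT
  · rw [h0]; simp
  have hPr : (0 : ℝ) < P.card := by exact_mod_cast hP
  have hTr : (0 : ℝ) < T.card := by exact_mod_cast hT
  set ε : ι → ℝ := fun i => if 0 ≤ ∑ p ∈ P, v i p then 1 else -1 with hε
  have hεa : ∀ i, |ε i| ≤ 1 := by
    intro i
    rw [hε]
    dsimp only
    split_ifs <;> simp
  have hεm : ∀ i, ε i * ∑ p ∈ P, v i p = |∑ p ∈ P, v i p| := by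
    intro i
    rw [hε]
    dsimp only
    split_ifs with h
    · rw [one_mul, abs_of_nonneg h]
    · rw [abs_of_neg (not_le.1 h)]; ring
  have e1 : θ * P.card * T.card ≤ ∑ p ∈ P, ∑ i ∈ T, ε i * v i p := by
    rw [sum_comm]
    calc θ * P.card * T.card = ∑ i ∈ T, θ * P.card := by rw [sum_const, nsmul_eq_mul]; ring
      _ ≤ ∑ i ∈ T, |∑ p ∈ P, v i p| := sum_le_sum fun i hi => h3 i hi
      _ = _ := by
        refine sum_congr rfl fun i _ => ?_
        rw [← mul_sum, hεm]
  have e2 : (∑ p ∈ P, ∑ i ∈ T, ε i * v i p) ^ 2 ≤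
      P.card * ∑ p ∈ P, (∑ i ∈ T, ε i * v i p) ^ 2 := sq_sum_le_card_mul_sum_sq
  have e3 : ∑ p ∈ P, (∑ i ∈ T, ε i * v i p) ^ 2 ≤
      (T.card : ℝ) * P.card + (T.card : ℝ) * T.card * (c * P.card) := by
    have f1 : ∑ p ∈ P, (∑ i ∈ T, ε i * v i p) ^ 2 =
        ∑ i ∈ T, ∑ j ∈ T, ε i * ε j * ∑ p ∈ P, v i p * v j p := by
      have : ∀ p ∈ P, (∑ i ∈ T, ε i * v i p) ^ 2 =
          ∑ i ∈ T, ∑ j ∈ T, ε i * ε j * (v i p * v j p) := by
        intro p _
        rw [pow_two, sum_mul_sum]
        refine sum_congr rfl fun i _ => sum_congr rfl fun j _ => ?_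
        ring
      rw [sum_congr rfl this, sum_comm]
      refine sum_congr rfl fun i _ => ?_
      rw [sum_comm]
      refine sum_congr rfl fun j _ => ?_
      rw [mul_sum]
    rw [f1]
    have f2 : ∀ i ∈ T, ∑ j ∈ T, ε i * ε j * ∑ p ∈ P, v i p * v j p ≤
        P.card + T.card * (c * P.card) := by
      intro i hi
      calc ∑ j ∈ T, ε i * ε j * ∑ p ∈ P, v i p * v j p
          ≤ ∑ j ∈ T, ((if i = j then (P.card : ℝ) else 0) + c * P.card) := by
            refine sum_le_sum fun j hj => ?_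
            have g1 : |ε i * ε j * ∑ p ∈ P, v i p * v j p| ≤ |∑ p ∈ P, v i p * v j p| := by
              rw [abs_mul, abs_mul]
              have : |ε i| * |ε j| ≤ 1 := mul_le_one₀ (hεa i) (abs_nonneg _) (hεa j)
              nlinarith [abs_nonneg (∑ p ∈ P, v i p * v j p)]
            refine (le_abs_self _).trans (g1.trans ?_)
            split_ifs with hij
            · subst hij
              have g2 : |∑ p ∈ P, v i p * v i p| ≤ P.card := by
                calc |∑ p ∈ P, v i p * v i p| ≤ ∑ p ∈ P, |v i p * v i p| :=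
                      abs_sum_le_sum_abs _ _
                  _ ≤ ∑ p ∈ P, (1 : ℝ) := by
                      refine sum_le_sum fun p hp => ?_
                      rw [abs_mul]
                      exact mul_le_one₀ (h1 i hi p hp) (abs_nonneg _) (h1 i hi p hp)
                  _ = _ := by rw [sum_const, nsmul_eq_mul, mul_one]
              have : 0 ≤ c * P.card := by positivity
              linarith
            · rw [zero_add]
              exact h2 i hi j hj hij
        _ = _ := by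
            rw [sum_add_distrib, sum_ite_eq, if_pos hi, sum_const, nsmul_eq_mul]
    calc _ ≤ ∑ i ∈ T, ((P.card : ℝ) + T.card * (c * P.card)) := sum_le_sum f2
      _ = _ := by rw [sum_const, nsmul_eq_mul]; ring
  have e4 : (θ * P.card * T.card) ^ 2 ≤
      P.card * ((T.card : ℝ) * P.card + (T.card : ℝ) * T.card * (c * P.card)) := by
    calc (θ * P.card * T.card) ^ 2 ≤ (∑ p ∈ P, ∑ i ∈ T, ε i * v i p) ^ 2 :=
          pow_le_pow_left₀ (by positivity) e1 2
      _ ≤ _ := e2.trans (mul_le_mul_of_nonneg_left e3 hPr.le)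
  have e5 : (T.card : ℝ) * P.card ^ 2 * (θ ^ 2 * T.card) ≤
      (T.card : ℝ) * P.card ^ 2 * (1 + c * T.card) := by
    calc _ = (θ * P.card * T.card) ^ 2 := by ring
      _ ≤ _ := e4
      _ = _ := by ring
  exact le_of_mul_le_mul_left e5 (by positivity)

/-- the number of the primes `p ≤ n` which divide `N` -/
theorem card_dvd_le (n N : ℕ) (hn : 2 ≤ n) (hN : N ≠ 0) :
    ((((Icc 1 n).filter Nat.Prime).filter (fun p => p ∣ N)).card : ℝ) ≤
      Real.sqrt n + 2 * (Real.log N / Real.log n) := by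
  set S := ((Icc 1 n).filter Nat.Prime).filter (fun p => p ∣ N) with hS
  have hmem : ∀ p ∈ S, p.Prime ∧ p ∣ N ∧ 1 ≤ p := by
    intro p hp
    rw [hS, mem_filter, mem_filter, mem_Icc] at hp
    exact ⟨hp.1.2, hp.2, hp.1.1.1⟩
  have hn0 : (0 : ℝ) < Real.log n := Real.log_pos (by exact_mod_cast (by omega : 1 < n))
  have hsplit := card_filter_add_card_filter_not (s := S) (fun p => p ≤ Nat.sqrt n)
  have h1 : ((S.filter (fun p => p ≤ Nat.sqrt n)).card : ℝ) ≤ Real.sqrt n := by
    have : (S.filter (fun p => p ≤ Nat.sqrt n)).card ≤ Nat.sqrt n := by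
      calc _ ≤ (Icc 1 (Nat.sqrt n)).card := by
            apply card_le_card
            intro p hp
            rw [mem_filter] at hp
            rw [mem_Icc]
            exact ⟨(hmem p hp.1).2.2, hp.2⟩
        _ = Nat.sqrt n := by simp
    calc ((S.filter (fun p => p ≤ Nat.sqrt n)).card : ℝ) ≤ (Nat.sqrt n : ℝ) := by exact_mod_cast this
      _ ≤ Real.sqrt n := Real.nat_sqrt_le_real_sqrt
  have h2 : ((S.filter (fun p => ¬ p ≤ Nat.sqrt n)).card : ℝ) ≤
      2 * (Real.log N / Real.log n) := by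
    set S2 := S.filter (fun p => ¬ p ≤ Nat.sqrt n) with hS2
    have g1 : ∏ p ∈ S2, p ≤ N := by
      refine Nat.le_of_dvd (Nat.pos_of_ne_zero hN) ?_
      refine Finset.prod_primes_dvd N (fun p hp => ?_) (fun p hp => ?_)
      · rw [hS2, mem_filter] at hp
        exact (hmem p hp.1).1.prime
      · rw [hS2, mem_filter] at hp
        exact (hmem p hp.1).2.1
    have g2 : (∏ p ∈ S2, (p : ℝ)) ≤ N := by
      have := (Nat.cast_le (α := ℝ)).2 g1
      rwa [Nat.cast_prod] at this
    have g3 : ∑ p ∈ S2, Real.log p ≤ Real.log N := by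
      rw [← Real.log_prod (fun p hp => by
        rw [hS2, mem_filter] at hp
        exact_mod_cast (hmem p hp.1).1.ne_zero)]
      exact Real.log_le_log (prod_pos fun p hp => by
        rw [hS2, mem_filter] at hp
        exact_mod_cast (hmem p hp.1).1.pos) g2
    have g4 : ∀ p ∈ S2, Real.log n / 2 ≤ Real.log p := by
      intro p hp
      rw [hS2, mem_filter] at hp
      have h5 : Nat.sqrt n + 1 ≤ p := by omega
      have h6 : n < p * p := by
        have := Nat.sqrt_lt'.1 (lt_of_lt_of_le (Nat.lt_succ_self _) h5)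
        nlinarith
      have h7 : (n : ℝ) ≤ (p : ℝ) ^ 2 := by
        rw [pow_two]
        exact_mod_cast h6.le
      have h8 := Real.log_le_log (by exact_mod_cast (by omega : 0 < n)) h7
      rw [Real.log_pow] at h8
      push_cast at h8
      linarith
    have g5 : (S2.card : ℝ) * (Real.log n / 2) ≤ Real.log N := by
      calc (S2.card : ℝ) * (Real.log n / 2) = ∑ p ∈ S2, Real.log n / 2 := by
            rw [sum_const, nsmul_eq_mul]
        _ ≤ _ := (sum_le_sum g4).trans g3
    rw [← mul_div_assoc, le_div_iff₀ hn0]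
    linarith
  have h3 : (S.card : ℝ) = ((S.filter (fun p => p ≤ Nat.sqrt n)).card : ℝ) +
      ((S.filter (fun p => ¬ p ≤ Nat.sqrt n)).card : ℝ) := by exact_mod_cast hsplit.symm
  rw [h3]
  linarith

/-- Chebyshev's lower bound -/
theorem pi_lower (y : ℕ) (hy : 16 ≤ y) :
    (y : ℝ) / 4 ≤ (((Icc 1 y).filter Nat.Prime).card : ℝ) * Real.log y := by
  have h0 : (Icc 1 y).filter Nat.Prime = (range (y + 1)).filter Nat.Prime := by
    ext p
    rw [mem_filter, mem_filter, mem_Icc, mem_range]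
    constructor
    · rintro ⟨⟨h1, h2⟩, h3⟩
      exact ⟨by omega, h3⟩
    · rintro ⟨h1, h3⟩
      exact ⟨⟨h3.one_le, by omega⟩, h3⟩
  rw [h0]
  have h1 : (y : ℝ) * Real.log 2 - Real.log (y + 1) ≤ Nat.primeCounting y * Real.log y :=
    (Chebyshev.psi_ge y).trans (Chebyshev.psi_le_primeCounting_mul_log y)
  rw [Nat.primeCounting, Nat.primeCounting', Nat.count_eq_card_filter_range] at h1
  have hy' : (16 : ℝ) ≤ y := by exact_mod_cast hy
  have h2 : Real.log ((y : ℝ) + 1) ≤ (y : ℝ) / 4 := by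
    have h3 : Real.log ((y : ℝ) + 1) = Real.log (((y : ℝ) + 1) / 16) + Real.log 16 := by
      rw [← Real.log_mul (by positivity) (by norm_num)]; congr 1; ring
    have h4 : Real.log (((y : ℝ) + 1) / 16) ≤ ((y : ℝ) + 1) / 16 - 1 :=
      Real.log_le_sub_one_of_pos (by positivity)
    have h5 : Real.log (16 : ℝ) = 4 * Real.log 2 := by
      rw [show (16 : ℝ) = 2 ^ 4 by norm_num, Real.log_pow]; norm_num
    have h6 := Real.log_two_lt_d9
    rw [h3, h5]
    linarith
  have h7 := Real.log_two_gt_d9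
  nlinarith

end Pool.Agent.NH20.BX
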