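import Pool.Agent.NH20.BX.Core

set_option autoImplicit false

/-! The number of exceptional twists of every discriminant is bounded: final forms. -/

namespace Pool.Agent.NH20.BX

open Finset Filter
open Pool.Agent.NH20.RP (NegFund thr)

/-- the number of the split primes below `y` -/
noncomputable def splitBelow (y : ℝ) (d : ℤ) : ℕ := Set.ncard {p : ℕ | p.Prime ∧
  (p : ℝ) < y ∧ ¬ (p : ℤ) ∣ d ∧ ∃ x : ℤ, (4 * (p : ℤ)) ∣ x ^ 2 - d}

/-- the number of the primes below `y` -/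
noncomputable def primesBelow (y : ℝ) : ℕ := Set.ncard {p : ℕ | p.Prime ∧ (p : ℝ) < y}

theorem lt_iff (y : ℝ) (hy : 0 < y) (p : ℕ) : (p : ℝ) < y ↔ p ≤ ⌈y⌉₊ - 1 := by
  have h1 : 0 < ⌈y⌉₊ := Nat.ceil_pos.2 hy
  rw [← Nat.lt_ceil]
  omega

theorem primesBelow_eq (y : ℝ) (hy : 0 < y) : primesBelow y = (P (⌈y⌉₊ - 1)).card := by
  unfold primesBelow
  rw [← Set.ncard_coe_finset]
  congr 1
  ext p
  rw [Set.mem_ofPred_eq, lt_iff y hy, mem_coe, mem_P]
  tauto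

open Classical in
theorem splitBelow_eq (y : ℝ) (hy : 0 < y) (d : ℤ) :
    splitBelow y d = ((P (⌈y⌉₊ - 1)).filter (fun p => spl d p)).card := by
  unfold splitBelow
  rw [← Set.ncard_coe_finset]
  congr 1
  ext p
  rw [Set.mem_ofPred_eq, lt_iff y hy, mem_coe, mem_filter, mem_P, spl]
  tauto

theorem splitBelow_mono (y y' : ℝ) (h : y ≤ y') (d : ℤ) : splitBelow y d ≤ splitBelow y' d := by
  unfold splitBelow
  refine Set.ncard_le_ncard (fun p hp => ?_) ?_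
  · exact ⟨hp.1, lt_of_lt_of_le hp.2.1 h, hp.2.2⟩
  · refine (Set.finite_Iio (⌈y'⌉₊ + 1)).subset fun p hp => ?_
    rw [Set.mem_Iio]
    have h1 : (p : ℝ) < y' := hp.2.1
    have h2 := Nat.le_ceil y'
    have : (p : ℝ) < ⌈y'⌉₊ := by linarith
    have : p < ⌈y'⌉₊ := by exact_mod_cast this
    omega

theorem part1 (A : ℕ) (η δ : ℝ) (hη : 0 < η) (hδ : 0 < δ) : ∃ C y₀ : ℝ, 0 < C ∧
    ∀ d₀ : ℤ, d₀ ≠ 0 → ∀ y : ℝ, y₀ ≤ y → C * Real.log |(d₀ : ℝ)| ≤ y →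
    ∀ S : Finset ℤ, (∀ d ∈ S, NegFund d ∧
      (∃ m k : ℤ, k ≠ 0 ∧ d₀ * d = m * k ^ 2 ∧ |(m : ℝ)| ≤ Real.log y ^ A) ∧
      η * primesBelow y < |2 * (splitBelow y d : ℝ) - primesBelow y|) →
    (S.card : ℝ) * η ^ 2 ≤ 1 + δ := by
  obtain ⟨C, n₀, hC, hcore⟩ := core (2 * A) η δ hη hδ
  have tl : Tendsto (fun n : ℕ => Real.log (n : ℝ)) atTop atTop :=
    Real.tendsto_log_atTop.comp tendsto_natCast_atTop_atTop
  obtain ⟨n₁, h1⟩ := eventually_atTop.1 (tl.eventually_ge_atTop 2)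
  refine ⟨2 * C, max (n₀ + 1) (max (n₁ + 1) 3), by positivity, fun d₀ hd0 y hy hCy S hS => ?_⟩
  have hy0 : (n₀ : ℝ) + 1 ≤ y := (le_max_left _ _).trans hy
  have hy1 : (n₁ : ℝ) + 1 ≤ y := ((le_max_left _ _).trans (le_max_right _ _)).trans hy
  have hy3 : (3 : ℝ) ≤ y := ((le_max_right _ _).trans (le_max_right _ _)).trans hy
  have hypos : 0 < y := by linarith
  set n := ⌈y⌉₊ - 1 with hn
  have hceil : 0 < ⌈y⌉₊ := Nat.ceil_pos.2 hypos
  have hn1 : y ≤ (n : ℝ) + 1 := by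
    have h2 := Nat.le_ceil y
    have h3 : (⌈y⌉₊ : ℝ) = (n : ℝ) + 1 := by
      rw [hn]
      push_cast [Nat.cast_sub hceil]
      ring
    linarith
  have hn0 : n₀ ≤ n := by
    have : (n₀ : ℝ) ≤ n := by linarith
    exact_mod_cast this
  have hn1' : n₁ ≤ n := by
    have : (n₁ : ℝ) ≤ n := by linarith
    exact_mod_cast this
  have hlog2 := h1 n hn1'
  have hnpos : (2 : ℝ) ≤ n := by linarith
  refine hcore d₀ hd0 n hn0 (by linarith) S (fun d hd => ?_)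
  obtain ⟨a1, ⟨m, k, hk, hmk, hm⟩, a3⟩ := hS d hd
  refine ⟨a1, ⟨m, k, hk, hmk, hm.trans ?_⟩, ?_⟩
  · have e1 : Real.log y ≤ 2 * Real.log n := by
      calc Real.log y ≤ Real.log ((n : ℝ) ^ 2) := Real.log_le_log hypos (by nlinarith)
        _ = _ := by rw [Real.log_pow]; push_cast; ring
    have e0 : 0 ≤ Real.log y := Real.log_nonneg (by linarith)
    calc Real.log y ^ A ≤ (2 * Real.log n) ^ A := pow_le_pow_left₀ e0 e1 A
      _ ≤ (Real.log n ^ 2) ^ A := pow_le_pow_left₀ (by positivity) (by nlinarith) A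
      _ = Real.log n ^ (2 * A) := by rw [pow_mul]
  · rw [primesBelow_eq y hypos, splitBelow_eq y hypos] at a3
    exact a3

theorem part2 (A : ℕ) : ∃ D : ℝ, ∀ d₁ d₂ : ℤ, NegFund d₁ → NegFund d₂ → d₁ ≠ d₂ →
    D ≤ |(d₁ : ℝ)| → |(d₁ : ℝ)| ≤ |(d₂ : ℝ)| →
    (∃ m k : ℤ, k ≠ 0 ∧ d₁ * d₂ = m * k ^ 2 ∧ |(m : ℝ)| ≤ Real.log (Real.log |(d₁ : ℝ)|) ^ A) →
    primesBelow (thr d₁) ≤ 7 * splitBelow (thr d₁) d₁ ∨
      primesBelow (thr d₁) ≤ 7 * splitBelow (thr d₂) d₂ := by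
  obtain ⟨C, y₀, hC, h1⟩ := part1 A (5 / 7) (1 / 50) (by norm_num) (by norm_num)
  have tl := Real.tendsto_log_atTop
  have tll : Tendsto (fun x : ℝ => Real.log (Real.log x)) atTop atTop := tl.comp tl
  obtain ⟨D, hD⟩ := eventually_atTop.1 ((tl.eventually_ge_atTop (max C (max y₀ 3))).and
    ((tll.eventually_ge_atTop 1).and (eventually_gt_atTop 0)))
  refine ⟨D, fun d₁ d₂ hf1 hf2 hne hD1 h12 hm => ?_⟩
  obtain ⟨hL, hLL, hpos⟩ := hD _ hD1
  set L := Real.log |(d₁ : ℝ)| with hLd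
  have hLC : C ≤ L := (le_max_left _ _).trans hL
  have hLy : y₀ ≤ L := ((le_max_left _ _).trans (le_max_right _ _)).trans hL
  have hL3 : 3 ≤ L := ((le_max_right _ _).trans (le_max_right _ _)).trans hL
  have hthr : L ^ 2 ≤ thr d₁ := by
    unfold thr
    rw [← hLd]
    have : 1 ≤ Real.log L ^ 2 := one_le_pow₀ hLL
    nlinarith [sq_nonneg L]
  have hLthr : L ≤ thr d₁ := by nlinarith
  have hthr12 : thr d₁ ≤ thr d₂ := by
    unfold thr
    rw [← hLd]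
    have e1 : L ≤ Real.log |(d₂ : ℝ)| := Real.log_le_log hpos h12
    have e2 : Real.log L ≤ Real.log (Real.log |(d₂ : ℝ)|) := Real.log_le_log (by linarith) e1
    exact mul_le_mul (pow_le_pow_left₀ (by linarith) e1 2) (pow_le_pow_left₀ (by linarith) e2 2)
      (by positivity) (by positivity)
  by_contra hcon
  rw [not_or, not_le, not_le] at hcon
  obtain ⟨c1, c2⟩ := hcon
  have c1' : (7 : ℝ) * splitBelow (thr d₁) d₁ < primesBelow (thr d₁) := by exact_mod_cast c1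
  have c2' : (7 : ℝ) * splitBelow (thr d₁) d₂ < primesBelow (thr d₁) := by
    have : 7 * splitBelow (thr d₁) d₂ < primesBelow (thr d₁) :=
      lt_of_le_of_lt (Nat.mul_le_mul_left 7 (splitBelow_mono _ _ hthr12 d₂)) c2
    exact_mod_cast this
  have hlogy : Real.log L ≤ Real.log (thr d₁) := Real.log_le_log (by linarith) hLthr
  have big : ∀ s t : ℝ, 7 * s < t → 5 / 7 * t < |2 * s - t| := by
    intro s t h
    have := neg_abs_le (2 * s - t)
    linarith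
  have hd1 : d₁ ≠ 0 := ne_of_lt hf1.1
  have := h1 d₁ hd1 (thr d₁) (hLy.trans hLthr) (by nlinarith) {d₁, d₂} (by
    intro d hd
    rw [mem_insert, mem_singleton] at hd
    rcases hd with rfl | rfl
    · refine ⟨hf1, ⟨1, d, hd1, by ring, ?_⟩, big _ _ c1'⟩
      rw [Int.cast_one, abs_one]
      exact one_le_pow₀ (by linarith)
    · obtain ⟨m, k, hk, hmk, hm⟩ := hm
      exact ⟨hf2, ⟨m, k, hk, hmk, hm.trans (pow_le_pow_left₀ (by linarith) hlogy A)⟩,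
        big _ _ c2'⟩)
  rw [card_pair hne] at this
  norm_num at this

end Pool.Agent.NH20.BX
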