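import Pool.Agent.NH20.RP.Rep
import Pool.Agent.NH20.BX.Fin
import Pool.Agent.H364R2.EC_SwTail

set_option autoImplicit false

/-! The number of exceptional twists of every discriminant is bounded. -/

namespace Pool.Agent.NH20.BX

open Finset Filter
open Pool.Agent.Helper919 (XX)
open Pool.Agent.NH20.RP (NegFund fund_eq fund_mod splits_of odd_sq_not_dvd)

/-- the primes up to `n` -/
def P (n : ℕ) : Finset ℕ := (Icc 1 n).filter (fun p : ℕ => p.Prime)

theorem mem_P {n p : ℕ} : p ∈ P n ↔ p ≤ n ∧ p.Prime := by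
  unfold P
  rw [mem_filter, mem_Icc]
  constructor
  · rintro ⟨⟨_, h1⟩, h2⟩
    exact ⟨h1, h2⟩
  · rintro ⟨h1, h2⟩
    exact ⟨⟨h2.one_le, h1⟩, h2⟩

/-- the condition of splitting -/
def spl (d : ℤ) (p : ℕ) : Prop := ¬ (p : ℤ) ∣ d ∧ ∃ x : ℤ, (4 * (p : ℤ)) ∣ x ^ 2 - d

theorem sw (W : ℕ) : ∃ y0 : ℕ, ∀ y : ℕ, y0 ≤ y → ∀ D : ℤ, ¬ IsSquare D →
    4 * |(D : ℝ)| ≤ Real.log y ^ W → |Pool.Agent.H364R2.EC.T D y| ≤ y / Real.log y ^ 2 := by
  obtain ⟨y0, h0⟩ := Pool.Agent.H442R2.EHI.Four8.sw (W + 2) W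
  refine ⟨max y0 3, fun y hy D hD hDy => ?_⟩
  have hy0 : y0 ≤ y := (le_max_left _ _).trans hy
  have hy3 : 3 ≤ y := (le_max_right _ _).trans hy
  have hL : 0 < Real.log y := Real.log_pos (by exact_mod_cast (by omega : 1 < y))
  have hD0 : D ≠ 0 := by rintro rfl; exact hD ⟨0, rfl⟩
  set q := 4 * D.natAbs with hq
  have hq1 : 1 ≤ q := by have := Int.natAbs_pos.2 hD0; omega
  have hqD : (q : ℝ) = 4 * |(D : ℝ)| := by
    rw [hq]; push_cast
    rw [Nat.cast_natAbs]
    push_cast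
    rfl
  have h3 := Pool.Agent.H364R2.EC.T_bound D hD y (W + 2) (fun c hc hcop =>
    h0 y hy0 q hq1 (by rw [hqD]; exact hDy) c hc hcop) (by positivity)
  refine h3.trans ?_
  rw [← hq]
  calc (q : ℝ) * (y / Real.log y ^ (W + 2)) ≤ Real.log y ^ W * (y / Real.log y ^ (W + 2)) := by
        gcongr
        rw [hqD]; exact hDy
    _ = y / Real.log y ^ 2 := by
        rw [pow_add]
        field_simp

theorem nat_dvd_iff {p : ℕ} {a : ℤ} : p ∣ a.natAbs ↔ (p : ℤ) ∣ a := by
  rw [← Int.natCast_dvd]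

/-- an odd prime dividing a twist divides `d₀` or `m` -/
theorem dvd_twist (d₀ d m k : ℤ) (hd : NegFund d) (h : d₀ * d = m * k ^ 2) (p : ℕ) (hp : p.Prime)
    (hp2 : p ≠ 2) (h0 : ¬ (p : ℤ) ∣ d₀) (hm : ¬ (p : ℤ) ∣ m) : ¬ (p : ℤ) ∣ k ∧ ¬ (p : ℤ) ∣ d := by
  have hpp : Prime (p : ℤ) := Nat.prime_iff_prime_int.1 hp
  have hk : ¬ (p : ℤ) ∣ k := by
    intro hk
    have h1 : (p : ℤ) ^ 2 ∣ d₀ * d := by
      rw [h]
      exact Dvd.dvd.mul_left (pow_dvd_pow_of_dvd hk 2) m
    have h2 : (p : ℤ) ^ 2 ∣ d := by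
      have hc : IsCoprime ((p : ℤ) ^ 2) d₀ := by
        apply IsCoprime.pow_left
        exact (Prime.coprime_iff_not_dvd hpp).2 h0
      exact hc.dvd_of_dvd_mul_left h1
    exact odd_sq_not_dvd d hd p hp hp2 h2
  refine ⟨hk, fun hd' => ?_⟩
  have h1 : (p : ℤ) ∣ m * k ^ 2 := by
    rw [← h]
    exact Dvd.dvd.mul_left hd' d₀
  rcases hpp.dvd_or_dvd h1 with h2 | h2
  · exact hm h2
  · exact hk (hpp.dvd_of_dvd_pow h2)

theorem jac_sq_one (p : ℕ) (hp : p.Prime) (a : ℤ) (ha : ¬ (p : ℤ) ∣ a) :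
    jacobiSym a p ^ 2 = 1 := by
  apply jacobiSym.sq_one
  rw [Int.gcd_comm]
  have hpp : Prime (p : ℤ) := Nat.prime_iff_prime_int.1 hp
  exact Int.isCoprime_iff_gcd_eq_one.1 ((Prime.coprime_iff_not_dvd hpp).2 ha)

theorem XX_odd (d : ℤ) (p : ℕ) (hp : p.Prime) (hp2 : p ≠ 2) : XX d p = (jacobiSym d p : ℝ) := by
  rw [Pool.Agent.Helper919.XX_apply, if_pos (hp.odd_of_ne_two hp2)]

theorem XX_two (d : ℤ) : XX d 2 = 0 := by
  rw [Pool.Agent.Helper919.XX_apply, if_neg]
  decide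

theorem mul_symb (d₀ d d' m m' k k' : ℤ) (hd : NegFund d) (hd' : NegFund d')
    (h : d₀ * d = m * k ^ 2) (h' : d₀ * d' = m' * k' ^ 2) (p : ℕ) (hp : p.Prime)
    (hp2 : p ≠ 2) (h0 : ¬ (p : ℤ) ∣ d₀) (hm : ¬ (p : ℤ) ∣ m) (hm' : ¬ (p : ℤ) ∣ m') :
    XX d p * XX d' p = XX (m * m') p := by
  obtain ⟨hk, _⟩ := dvd_twist d₀ d m k hd h p hp hp2 h0 hm
  obtain ⟨hk', _⟩ := dvd_twist d₀ d' m' k' hd' h' p hp hp2 h0 hm'
  have e0 := jac_sq_one p hp d₀ h0
  have ek := jac_sq_one p hp k hk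
  have ek' := jac_sq_one p hp k' hk'
  have e1 : jacobiSym d₀ p * jacobiSym d p = jacobiSym m p := by
    rw [← jacobiSym.mul_left, h, jacobiSym.mul_left, jacobiSym.pow_left, ek, mul_one]
  have e2 : jacobiSym d₀ p * jacobiSym d' p = jacobiSym m' p := by
    rw [← jacobiSym.mul_left, h', jacobiSym.mul_left, jacobiSym.pow_left, ek', mul_one]
  have e3 : jacobiSym d p * jacobiSym d' p = jacobiSym (m * m') p := by
    rw [jacobiSym.mul_left, ← e1, ← e2]
    calc jacobiSym d p * jacobiSym d' p = jacobiSym d₀ p ^ 2 * (jacobiSym d p * jacobiSym d' p) := by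
          rw [e0, one_mul]
      _ = _ := by ring
  rw [XX_odd d p hp hp2, XX_odd d' p hp hp2, XX_odd (m * m') p hp hp2, ← e3]
  push_cast
  ring

theorem sq_of_mul_sq (a b : ℤ) (ha : a ≠ 0) (h : IsSquare (a ^ 2 * b)) : IsSquare b := by
  obtain ⟨c, hc⟩ := h
  have h1 : a ^ 2 ∣ c ^ 2 := ⟨b, by rw [hc]; ring⟩
  have h2 : a ∣ c := (Int.pow_dvd_pow_iff (by norm_num)).1 h1
  obtain ⟨e, rfl⟩ := h2
  refine ⟨e, ?_⟩
  have h3 : a ^ 2 * b = a ^ 2 * (e * e) := by rw [hc]; ring
  exact mul_left_cancel₀ (pow_ne_zero 2 ha) h3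

theorem not_square (d₀ d d' m m' k k' : ℤ) (h0 : d₀ ≠ 0) (hd : NegFund d) (hd' : NegFund d')
    (hne : d ≠ d') (h : d₀ * d = m * k ^ 2) (h' : d₀ * d' = m' * k' ^ 2) :
    ¬ IsSquare (m * m') := by
  rintro ⟨s, hs⟩
  apply hne
  apply fund_eq d d' hd hd'
  apply sq_of_mul_sq d₀ _ h0
  refine ⟨s * k * k', ?_⟩
  calc d₀ ^ 2 * (d * d') = (d₀ * d) * (d₀ * d') := by ring
    _ = (m * m') * (k ^ 2 * k' ^ 2) := by rw [h, h']; ring
    _ = _ := by rw [hs]; ring

/-- the number of the primes up to `n` dividing `2 d₀ m m'` -/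
noncomputable def bad (n : ℕ) (d₀ m m' : ℤ) : Finset ℕ :=
  (P n).filter (fun p => p ∣ (2 * d₀ * m * m').natAbs)

theorem not_bad {n : ℕ} {d₀ m m' : ℤ} {p : ℕ} (hp : p ∈ P n) (h : p ∉ bad n d₀ m m') :
    p ≠ 2 ∧ ¬ (p : ℤ) ∣ d₀ ∧ ¬ (p : ℤ) ∣ m ∧ ¬ (p : ℤ) ∣ m' := by
  rw [bad, mem_filter, not_and] at h
  have h1 := h hp
  rw [nat_dvd_iff] at h1
  refine ⟨fun h2 => h1 ?_, fun h2 => h1 ?_, fun h2 => h1 ?_, fun h2 => h1 ?_⟩
  · rw [h2]; exact ⟨d₀ * m * m', by push_cast; ring⟩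
  · obtain ⟨c, hc⟩ := h2; exact ⟨2 * c * m * m', by rw [hc]; ring⟩
  · obtain ⟨c, hc⟩ := h2; exact ⟨2 * d₀ * c * m', by rw [hc]; ring⟩
  · obtain ⟨c, hc⟩ := h2; exact ⟨2 * d₀ * m * c, by rw [hc]; ring⟩

theorem gram (n : ℕ) (d₀ d d' m m' k k' : ℤ) (hd : NegFund d) (hd' : NegFund d')
    (h : d₀ * d = m * k ^ 2) (h' : d₀ * d' = m' * k' ^ 2) :
    |∑ p ∈ P n, XX d p * XX d' p| ≤
      |Pool.Agent.H364R2.EC.T (m * m') n| + 2 * (bad n d₀ m m').card := by
  have e1 : |∑ p ∈ P n, XX d p * XX d' p - Pool.Agent.H364R2.EC.T (m * m') n| ≤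
      2 * (bad n d₀ m m').card := by
    unfold Pool.Agent.H364R2.EC.T
    change |∑ p ∈ P n, XX d p * XX d' p - ∑ p ∈ P n, XX (m * m') p| ≤ _
    rw [← sum_sub_distrib]
    refine (abs_sum_le_sum_abs _ _).trans ?_
    calc ∑ p ∈ P n, |XX d p * XX d' p - XX (m * m') p|
        ≤ ∑ p ∈ P n, (if p ∈ bad n d₀ m m' then (2 : ℝ) else 0) := by
          refine sum_le_sum fun p hp => ?_
          have hpp := (mem_P.1 hp).2
          split_ifs with hb
          · have g1 := Pool.Agent.Helper919.XX_abs_le d p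
            have g2 := Pool.Agent.Helper919.XX_abs_le d' p
            have g3 := Pool.Agent.Helper919.XX_abs_le (m * m') p
            calc |XX d p * XX d' p - XX (m * m') p| ≤ |XX d p * XX d' p| + |XX (m * m') p| :=
                  abs_sub _ _
              _ ≤ 1 + 1 := by
                  refine add_le_add ?_ g3
                  rw [abs_mul]
                  exact mul_le_one₀ g1 (abs_nonneg _) g2
              _ = 2 := by norm_num
          · obtain ⟨a1, a2, a3, a4⟩ := not_bad hp hb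
            rw [mul_symb d₀ d d' m m' k k' hd hd' h h' p hpp a1 a2 a3 a4, sub_self, abs_zero]
      _ = ∑ p ∈ (P n).filter (fun p => p ∈ bad n d₀ m m'), (2 : ℝ) := by rw [sum_filter]
      _ = 2 * (bad n d₀ m m').card := by
          rw [sum_const, nsmul_eq_mul, mul_comm]
          congr 2
          congr 1
          ext p
          rw [mem_filter, bad, mem_filter]
          tauto
  have e2 := abs_sub_abs_le_abs_sub (∑ p ∈ P n, XX d p * XX d' p)
    (Pool.Agent.H364R2.EC.T (m * m') n)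
  linarith

open Classical in
theorem split_sum (n : ℕ) (d₀ d m k : ℤ) (hd : NegFund d) (h : d₀ * d = m * k ^ 2) :
    |(2 * (((P n).filter (fun p => spl d p)).card : ℝ) - (P n).card) - ∑ p ∈ P n, XX d p| ≤
      (bad n d₀ m 1).card := by
  have h1 : 2 * (((P n).filter (fun p => spl d p)).card : ℝ) - ((P n).card : ℝ) =
      ∑ p ∈ P n, (2 * (if spl d p then (1 : ℝ) else 0) - 1) := by
    rw [sum_sub_distrib, ← mul_sum, ← sum_filter, sum_const, sum_const, nsmul_eq_mul,
      nsmul_eq_mul, mul_one, mul_one]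
  rw [h1, ← sum_sub_distrib]
  refine (abs_sum_le_sum_abs _ _).trans ?_
  calc ∑ p ∈ P n, |(2 * (if spl d p then (1 : ℝ) else 0) - 1) - XX d p|
      ≤ ∑ p ∈ P n, (if p ∈ bad n d₀ m 1 then (1 : ℝ) else 0) := by
        refine sum_le_sum fun p hp => ?_
        have hpp := (mem_P.1 hp).2
        by_cases hpd : p ≠ 2 ∧ ¬ (p : ℤ) ∣ d
        · have g0 : (2 * (if spl d p then (1 : ℝ) else 0) - 1) - XX d p = 0 := by
            rw [XX_odd d p hpp hpd.1]
            have g1 : spl d p ↔ jacobiSym d p = 1 := by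
              have : Fact p.Prime := ⟨hpp⟩
              have hd0 : ((d : ℤ) : ZMod p) ≠ 0 := by
                intro h
                exact hpd.2 ((ZMod.intCast_zmod_eq_zero_iff_dvd d p).mp h)
              rw [← jacobiSym.legendreSym.to_jacobiSym, legendreSym.eq_one_iff p hd0]
              constructor
              · rintro ⟨_, x, hx⟩
                refine ⟨(x : ZMod p), ?_⟩
                have h2 : ((x ^ 2 - d : ℤ) : ZMod p) = 0 :=
                  (ZMod.intCast_zmod_eq_zero_iff_dvd _ p).mpr ((Dvd.intro_left _ rfl).trans hx)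
                push_cast at h2
                rw [← sub_eq_zero.mp h2]
                ring
              · rintro ⟨r, hr⟩
                refine ⟨hpd.2, splits_of d hd p hpp hpd.1 ⟨(r.val : ℤ), ?_⟩⟩
                rw [← ZMod.intCast_zmod_eq_zero_iff_dvd]
                push_cast
                rw [ZMod.natCast_zmod_val, hr]
                ring
            by_cases hs : spl d p
            · rw [if_pos hs, g1.1 hs]; norm_num
            · rw [if_neg hs]
              have g2 := jac_sq_one p hpp d hpd.2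
              have g3 : jacobiSym d p ≠ 1 := fun h => hs (g1.2 h)
              have g4 : jacobiSym d p = -1 := by
                rcases jacobiSym.trichotomy d p with h | h | h
                · rw [h] at g2; norm_num at g2
                · exact absurd h g3
                · exact h
              rw [g4]; norm_num
          rw [g0, abs_zero]
          split_ifs <;> norm_num
        · have hb : p ∈ bad n d₀ m 1 := by
            by_contra hb
            obtain ⟨a1, a2, a3, _⟩ := not_bad hp hb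
            exact hpd ⟨a1, (dvd_twist d₀ d m k hd h p hpp a1 a2 a3).2⟩
          rw [if_pos hb]
          have hX : XX d p = 0 := by
            by_cases h2 : p = 2
            · rw [h2, XX_two]
            · have h3 : (p : ℤ) ∣ d := by
                by_contra h3
                exact hpd ⟨h2, h3⟩
              rw [XX_odd d p hpp h2]
              have : Fact p.Prime := ⟨hpp⟩
              rw [← jacobiSym.legendreSym.to_jacobiSym, (legendreSym.eq_zero_iff p d).2
                ((ZMod.intCast_zmod_eq_zero_iff_dvd d p).2 h3)]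
              norm_num
          rw [hX]
          split_ifs <;> norm_num
    _ = ∑ p ∈ (P n).filter (fun p => p ∈ bad n d₀ m 1), (1 : ℝ) := by rw [sum_filter]
    _ = (bad n d₀ m 1).card := by
        rw [sum_const, nsmul_eq_mul, mul_one]
        congr 2
        ext p
        rw [mem_filter, bad, mem_filter]
        tauto

end Pool.Agent.NH20.BX
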